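import Pool.Agent.H58.RayGraph

set_option autoImplicit false

namespace Pool.Agent.Results.MP_5b767b_an.Disproof

open Filter Topology Pool.Agent.H58.RayGraph
open scoped Classical

/-- `z` lies in the spectrum of the adjacency operator of `G` on square-summable functions:
`z - H` is not a bijection of that space. -/
def InSpectrum {V : Type} (G : SimpleGraph V) [G.LocallyFinite] (z : ℂ) : Prop :=
  ¬ ∀ g : V → ℂ, Summable (fun v => ‖g v‖ ^ 2) →
    ∃! f : V → ℂ, Summable (fun v => ‖f v‖ ^ 2) ∧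
      ∀ v, z * f v - ∑ w ∈ G.neighborFinset v, f w = g v

/-- An amenable connected simple graph of bounded degree covering another one, all weights `1`,
with a point of the spectrum of the base outside the spectrum of the cover. -/
theorem result :
    ∃ (V₁ V₂ : Type) (G₁ : SimpleGraph V₁) (G₂ : SimpleGraph V₂) (_ : G₁.LocallyFinite)
      (_ : G₂.LocallyFinite) (φ : V₁ → V₂),
      (∀ v, G₁.degree v ≤ 4) ∧ (∀ v, G₂.degree v ≤ 4) ∧ G₁.Connected ∧
      (∃ F : ℕ → Finset V₁, Monotone F ∧ (∀ v, ∃ k, v ∈ F k) ∧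
        Tendsto (fun k => ((((F k).biUnion (fun v => G₁.neighborFinset v)) \ F k).card : ℝ) /
          (F k).card) atTop (𝓝 0)) ∧
      Function.Surjective φ ∧
      (∀ v, Set.BijOn φ (G₁.neighborSet v) (G₂.neighborSet (φ v))) ∧
      ∃ z : ℂ, InSpectrum G₂ z ∧ ¬ InSpectrum G₁ z := by
  obtain ⟨H₁, a1, a2⟩ := op1
  obtain ⟨H₂, b1, b2⟩ := op2
  have : Nonempty W := ⟨⟨[], by simp⟩⟩
  obtain ⟨F, c1, c2, c3⟩ := tree.amen (inst := fun a b => Classical.propDecidable (a = b))
  refine ⟨W × ℕ, K × ℕ, tree.G, four.G, inferInstance, inferInstance, Prod.map ph id,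
    tree.deg, four.deg, tree_conn, ⟨F, c1, c2, ?_⟩, ph_surj.prodMap Function.surjective_id,
    cover tree four ph ph_mv, 10 / 3, ?_, ?_⟩
  · simp only [tree.nf]
    exact c3
  · simp only [InSpectrum, four.nf]
    rw [← spec_iff _ H₂ b1]
    exact not_not.2 b2
  · simp only [InSpectrum, tree.nf]
    rw [← spec_iff _ H₁ a1]
    exact not_not.2 a2

end Pool.Agent.Results.MP_5b767b_an.Disproof
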